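import Pool.Agent.NPX.Stmts

/-!
# AVG (MP_005a41_gt, squad NPX): averaging
-/

set_option autoImplicit false

namespace Pool.Agent.NPX.H10

open MeasureTheory Set Topology
open scoped ENNReal

theorem avg (mup : MupStmt) (uac : UacStmt) : AvgStmt := by
  classical
  intro K _ _ _ _ _ _ _ _ G hG V hV hVu ε hε hε1
  obtain ⟨hP1, hHaar, hmk1, hPk, -, -, -⟩ := mup K
  haveI := hP1
  haveI := hHaar
  have hC : ∀ u : ℤ, ∃ C : ℕ, u ∈ V → ∀ E : Set K, MeasurableSet E →
      mk K u E ≤ C * mu K E := by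
    intro u
    by_cases hu : u ∈ V
    · obtain ⟨C, hC⟩ := uac K u (hVu u hu)
      exact ⟨C, fun _ => hC⟩
    · exact ⟨0, fun h => absurd h hu⟩
  choose Cf hCf using hC
  obtain ⟨C, hCle⟩ : ∃ C : ℕ, ∀ u ∈ V, Cf u ≤ C :=
    ⟨∑ u ∈ V, Cf u, fun u hu => Finset.single_le_sum (fun _ _ => Nat.zero_le _) hu⟩
  refine ⟨ENNReal.ofReal (ε / (C + 1)), ENNReal.ofReal_pos.mpr (by positivity), ?_⟩
  intro M F hM hMδ hF Q hQ
  obtain ⟨W, hW⟩ : ∃ W : Finset (ℤ × K), W = V ×ˢ F := ⟨_, rfl⟩
  let A : ℤ × K → Set K := fun w => {x | x ^ w.1 * w.2 ∉ M}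
  have hAm : ∀ w, MeasurableSet (A w) := by
    intro w
    have hc : Measurable fun x : K => x ^ w.1 * w.2 :=
      ((continuous_zpow w.1).mul continuous_const).measurable
    exact hc hM.compl
  have hAle : ∀ w ∈ W, mu K (A w) ≤ C * ENNReal.ofReal (ε / (C + 1)) := by
    intro w hw
    rw [hW] at hw
    have hw1 : w.1 ∈ V := (Finset.mem_product.mp hw).1
    have hE : MeasurableSet {y : K | y * w.2 ∉ M} := (measurable_mul_const w.2) hM.compl
    have h1 : mu K (A w) = mk K w.1 {y | y * w.2 ∉ M} := by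
      show _ = (mu K).map (fun x => x ^ w.1) {y | y * w.2 ∉ M}
      rw [Measure.map_apply (continuous_zpow w.1).measurable hE]
      rfl
    have h2 : mu K {y : K | y * w.2 ∉ M} = mu K Mᶜ := by
      have h3 : {y : K | y * w.2 ∉ M} = (fun y => w.2 * y) ⁻¹' Mᶜ := by
        ext y
        show y * w.2 ∉ M ↔ w.2 * y ∉ M
        rw [mul_comm]
      rw [h3, measure_preimage_mul]
    rw [h1]
    refine (hCf w.1 hw1 _ hE).trans ?_
    rw [h2]
    exact mul_le_mul' (Nat.cast_le.mpr (hCle _ hw1)) hMδ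
  let f : K → ENNReal := fun x => ∑ w ∈ W, (A w).indicator (fun _ => (1 : ENNReal)) x
  have hfm : Measurable f :=
    Finset.measurable_fun_sum _ fun w _ => measurable_const.indicator (hAm w)
  have hfi : ∫⁻ x, f x ∂(mu K) ≤ W.card * (C * ENNReal.ofReal (ε / (C + 1))) := by
    show ∫⁻ x, ∑ w ∈ W, (A w).indicator (fun _ => (1 : ENNReal)) x ∂(mu K) ≤ _
    rw [lintegral_finsetSum _ (fun w _ => measurable_const.indicator (hAm w))]
    calc _ ≤ ∑ w ∈ W, ((C : ENNReal) * ENNReal.ofReal (ε / (C + 1))) := by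
          refine Finset.sum_le_sum fun w hw => ?_
          rw [lintegral_indicator_const (hAm w), one_mul]
          exact hAle w hw
      _ = _ := by rw [Finset.sum_const, nsmul_eq_mul]
  have hWc : 0 < (W.card : ℝ) := by
    rw [hW, Finset.card_product]
    exact_mod_cast Nat.mul_pos hV.card_pos hF.card_pos
  obtain ⟨t, ht⟩ : ∃ t : ENNReal, t = ENNReal.ofReal (ε * W.card) := ⟨_, rfl⟩
  have hpos : 0 < mu K {x | f x < t} := by
    by_contra hcon
    have h0 : mu K {x | f x < t} = 0 := nonpos_iff_eq_zero.mp (not_lt.mp hcon)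
    have h1 : mu K {x | t ≤ f x} = 1 := by
      have h2 : {x | t ≤ f x} = {x | f x < t}ᶜ := by
        ext x
        simp
      rw [h2, prob_compl_eq_one_sub (measurableSet_lt hfm measurable_const), h0, tsub_zero]
    have h3 := mul_meas_ge_le_lintegral hfm t (μ := mu K)
    rw [h1, mul_one] at h3
    have h4 := h3.trans hfi
    have h5 : (W.card : ENNReal) * (C * ENNReal.ofReal (ε / (C + 1))) =
        ENNReal.ofReal (W.card * (C * (ε / (C + 1)))) := by
      rw [ENNReal.ofReal_mul (by positivity), ENNReal.ofReal_mul (by positivity),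
        ENNReal.ofReal_natCast, ENNReal.ofReal_natCast]
    rw [h5, ht, ENNReal.ofReal_le_ofReal_iff (by positivity)] at h4
    have h6 : (C : ℝ) * (ε / (C + 1)) < ε := by
      rw [mul_div_assoc', div_lt_iff₀ (by positivity)]
      nlinarith
    have h7 := mul_lt_mul_of_pos_left h6 hWc
    linarith
  obtain ⟨N, hN⟩ : ∃ N : Set K, N = toMeasurable (mu K) {x | ¬ Q x} := ⟨_, rfl⟩
  have hN0 : mu K N = 0 := by
    rw [hN, measure_toMeasurable]
    exact hQ
  have hEm : MeasurableSet ({x | f x < t} \ N) := by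
    rw [hN]
    exact (measurableSet_lt hfm measurable_const).diff (measurableSet_toMeasurable _ _)
  have hEpos : 0 < mk K 1 ({x | f x < t} \ N) := by
    rw [hmk1, measure_diff_null hN0]
    exact hpos
  have hInf1 : Inf K 1 := by
    have h1 : (Set.range fun x : K => x ^ (1 : ℤ)) = Set.univ := by
      ext x
      simp
    unfold Inf
    rw [h1]
    exact Set.infinite_univ
  obtain ⟨x, hxG, hxE⟩ := hG.full 1 hInf1 _ hEm hEpos
  refine ⟨x, hxG, ?_, ?_⟩
  · by_contra hq
    apply hxE.2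
    rw [hN]
    exact subset_toMeasurable _ _ hq
  · have hfx : f x = ((W.filter fun w => x ^ w.1 * w.2 ∉ M).card : ENNReal) := by
      show ∑ w ∈ W, (A w).indicator (fun _ => (1 : ENNReal)) x = _
      rw [Finset.card_filter, Nat.cast_sum]
      refine Finset.sum_congr rfl fun w _ => ?_
      by_cases h : x ^ w.1 * w.2 ∉ M
      · rw [Set.indicator_of_mem (show x ∈ A w from h), if_pos h, Nat.cast_one]
      · rw [Set.indicator_of_notMem (show x ∉ A w from h), if_neg h, Nat.cast_zero]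
    have hlt : f x < t := hxE.1
    rw [hfx, ht, ENNReal.lt_ofReal_iff_toReal_lt (ENNReal.natCast_ne_top _),
      ENNReal.toReal_natCast] at hlt
    have hset : {w : ℤ × K | w.1 ∈ V ∧ w.2 ∈ F ∧ x ^ w.1 * w.2 ∈ M} =
        ((W.filter fun w => x ^ w.1 * w.2 ∈ M : Finset (ℤ × K)) : Set (ℤ × K)) := by
      ext w
      simp [hW, and_assoc]
    rw [hset, Set.ncard_coe_finset]
    have hsum := Finset.card_filter_add_card_filter_not (s := W) (fun w => x ^ w.1 * w.2 ∈ M)
    have hsum' : ((W.filter fun w => x ^ w.1 * w.2 ∈ M).card : ℝ) +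
        ((W.filter fun w => x ^ w.1 * w.2 ∉ M).card : ℝ) = W.card := by
      exact_mod_cast hsum
    have hcard : (W.card : ℝ) = V.card * F.card := by
      rw [hW, Finset.card_product, Nat.cast_mul]
    rw [← hcard]
    linarith

end Pool.Agent.NPX.H10
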