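import Pool.Agent.NPX.Stmts

/-!
# UAC (MP_005a41_gt, squad NPX): bounded density for units
-/

set_option autoImplicit false

namespace Pool.Agent.NPX.H10

open MeasureTheory Set Topology
open scoped ENNReal

theorem uac (mup : MupStmt) : UacStmt := by
  intro K _ _ _ _ _ _ _ _ u hu
  obtain ⟨v, hv⟩ := hu
  obtain ⟨hP1, hHaar, -, hPk, -, -, hrange⟩ := mup K
  haveI := hP1
  haveI := hHaar
  haveI := hPk u
  have hfin : (Set.range fun x : K => x ^ (u * v - 1)).Finite := Set.not_infinite.mp hv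
  refine ⟨hfin.toFinset.card, fun E hE => ?_⟩
  set P : Set K := Set.range fun x : K => x ^ u with hPdef
  have hPm : MeasurableSet P := (hrange u).1
  have hcu : Measurable fun x : K => x ^ u := (continuous_zpow u).measurable
  have hcover : (1 : ℝ≥0∞) ≤ hfin.toFinset.card * mu K P := by
    have h1 : (Set.univ : Set K) ⊆ ⋃ t ∈ hfin.toFinset, (fun x => t * x) ⁻¹' P := by
      intro x _
      refine Set.mem_biUnion (x := x ^ (u * v - 1)) (hfin.mem_toFinset.mpr ⟨x, rfl⟩) ?_
      show x ^ (u * v - 1) * x ∈ P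
      refine ⟨x ^ v, ?_⟩
      show (x ^ v) ^ u = x ^ (u * v - 1) * x
      rw [← zpow_mul, ← zpow_add_one]
      congr 1
      ring
    calc (1 : ℝ≥0∞) = mu K univ := measure_univ.symm
      _ ≤ mu K (⋃ t ∈ hfin.toFinset, (fun x => t * x) ⁻¹' P) := measure_mono h1
      _ ≤ ∑ t ∈ hfin.toFinset, mu K ((fun x => t * x) ⁻¹' P) := measure_biUnion_finset_le _ _
      _ = hfin.toFinset.card * mu K P := by
        rw [Finset.sum_congr rfl (fun t _ => measure_preimage_mul (mu K) t P), Finset.sum_const,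
          nsmul_eq_mul]
  have hinv : ∀ z ∈ P, mk K u {y | z * y ∈ E} = mk K u E := by
    rintro _ ⟨w, rfl⟩
    have hm1 : MeasurableSet {y : K | w ^ u * y ∈ E} :=
      (measurable_const_mul (w ^ u)) hE
    show (mu K).map (fun x => x ^ u) {y | w ^ u * y ∈ E} = (mu K).map (fun x => x ^ u) E
    rw [Measure.map_apply hcu hm1, Measure.map_apply hcu hE]
    have h1 : (fun x : K => x ^ u) ⁻¹' {y | w ^ u * y ∈ E} =
        (fun x => w * x) ⁻¹' ((fun x : K => x ^ u) ⁻¹' E) := by
      ext x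
      show w ^ u * x ^ u ∈ E ↔ (w * x) ^ u ∈ E
      rw [mul_zpow]
    rw [h1, measure_preimage_mul]
  have hS : MeasurableSet {p : K × K | p.1 * p.2 ∈ E} := measurable_mul hE
  have hfub : ∫⁻ z, mk K u {y | z * y ∈ E} ∂(mu K) = mu K E := by
    have h1 := Measure.prod_apply (μ := mu K) (ν := mk K u) hS
    have h2 := Measure.prod_apply_symm (μ := mu K) (ν := mk K u) hS
    have h3 : ∀ y : K, mu K ((fun z => (z, y)) ⁻¹' {p : K × K | p.1 * p.2 ∈ E}) = mu K E := by
      intro y
      have h4 : (fun z => (z, y)) ⁻¹' {p : K × K | p.1 * p.2 ∈ E} = (fun z => y * z) ⁻¹' E := by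
        ext z
        show z * y ∈ E ↔ y * z ∈ E
        rw [mul_comm]
      rw [h4, measure_preimage_mul]
    rw [h1] at h2
    have h5 : ∫⁻ z, mk K u {y | z * y ∈ E} ∂(mu K) =
        ∫⁻ y, mu K ((fun z => (z, y)) ⁻¹' {p : K × K | p.1 * p.2 ∈ E}) ∂(mk K u) := h2
    rw [h5, lintegral_congr h3, lintegral_const, measure_univ, mul_one]
  have hlow : mk K u E * mu K P ≤ mu K E := by
    calc mk K u E * mu K P = ∫⁻ _ in P, mk K u E ∂(mu K) := by rw [setLIntegral_const]
      _ = ∫⁻ z in P, mk K u {y | z * y ∈ E} ∂(mu K) :=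
          setLIntegral_congr_fun hPm fun z hz => (hinv z hz).symm
      _ ≤ ∫⁻ z, mk K u {y | z * y ∈ E} ∂(mu K) := setLIntegral_le_lintegral _ _
      _ = mu K E := hfub
  calc mk K u E = mk K u E * 1 := (mul_one _).symm
    _ ≤ mk K u E * (hfin.toFinset.card * mu K P) := mul_le_mul_right hcover _
    _ = hfin.toFinset.card * (mk K u E * mu K P) := by ring
    _ ≤ hfin.toFinset.card * mu K E := mul_le_mul_right hlow _

end Pool.Agent.NPX.H10
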